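import Pool.Agent.W120.MS.Tree

/-!
# Project MS: double counting
-/

set_option autoImplicit false

namespace Pool.Agent.W120.MS

open Pool.Agent.W79.MS

open scoped Classical

section

variable {V : Type}

theorem mem_mv' (σ : Equiv.Perm V) (L : Finset (V × V)) (u v : V) :
    (u, v) ∈ mv σ L ↔ (σ⁻¹ u, σ⁻¹ v) ∈ L := by
  rw [mem_mv]
  constructor
  · rintro ⟨q, hq, h⟩
    obtain ⟨h1, h2⟩ := Prod.mk.inj h
    rw [← h1, ← h2]
    simpa using hq
  · intro h
    exact ⟨_, h, by simp⟩

theorem mv_mv (σ τ : Equiv.Perm V) (L : Finset (V × V)) : mv σ (mv τ L) = mv (σ * τ) L := by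
  ext ⟨u, v⟩
  rw [mem_mv', mem_mv', mem_mv', mul_inv_rev]
  rfl

theorem mv_one (L : Finset (V × V)) : mv 1 L = L := by
  ext ⟨u, v⟩
  rw [mem_mv']
  simp

theorem und_adj (L : Finset (V × V)) (u v : V) :
    (und L).Adj u v ↔ u ≠ v ∧ ((u, v) ∈ L ∨ (v, u) ∈ L) := by
  unfold und
  exact SimpleGraph.fromRel_adj _ _ _

theorem und_mv (σ : Equiv.Perm V) (L : Finset (V × V)) :
    und (mv σ L) = (und L).comap (σ⁻¹ : Equiv.Perm V).toEmbedding := by
  ext u v
  rw [und_adj, SimpleGraph.comap_adj, und_adj, mem_mv', mem_mv']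
  simp

theorem und_mono {L M : Finset (V × V)} (h : L ⊆ M) : und L ≤ und M := by
  intro u v huv
  rw [und_adj] at huv ⊢
  exact ⟨huv.1, huv.2.imp (fun h' => h h') (fun h' => h h')⟩

theorem ori_sub {L M : Finset (V × V)} (h : L ⊆ M) (hM : Ori M) : Ori L :=
  ⟨fun v hv => hM.1 v (h hv), fun u v huv hvu => hM.2 u v (h huv) (h hvu)⟩

theorem ori_mv (σ : Equiv.Perm V) {L : Finset (V × V)} (h : Ori L) : Ori (mv σ L) := by
  refine ⟨fun v hv => ?_, fun u v huv hvu => ?_⟩
  · rw [mem_mv'] at hv
    exact h.1 _ hv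
  · rw [mem_mv'] at huv hvu
    exact h.2 _ _ huv hvu

theorem reach_sub {L M : Finset (V × V)} (h : L ⊆ M) {r : V} (hL : Reach L r) : Reach M r :=
  fun v => Relation.ReflTransGen.mono (fun _ _ hxy => h hxy) _ _ (hL v)

theorem reach_mv (σ : Equiv.Perm V) {L : Finset (V × V)} {r : V} (hL : Reach L r) :
    Reach (mv σ L) (σ r) := by
  intro v
  have h1 := hL (σ⁻¹ v)
  have h2 : Relation.ReflTransGen (fun x y => (x, y) ∈ mv σ L) (σ r) (σ (σ⁻¹ v)) := by
    refine Relation.ReflTransGen.lift σ (fun a b hab => ?_) _ _ h1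
    change (σ a, σ b) ∈ mv σ L
    rw [mem_mv']
    simpa using hab
  simpa using h2

theorem card_mv (σ : Equiv.Perm V) (L : Finset (V × V)) : (mv σ L).card ≤ L.card :=
  Finset.card_image_le

end

theorem dbl (hT : S_TREE) (hO : S_ORI) : S_DBL := by
  intro c P hH hM hS n D A r hA hD hR hP
  have hn : 1 ≤ n := by
    have := r.isLt
    omega
  rcases Nat.eq_zero_or_pos D with rfl | hD1
  · refine ⟨∅, Finset.empty_subset _, by simp, ?_⟩
    have hA0 : A = ∅ := by
      rw [Finset.eq_empty_iff_forall_notMem]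
      intro p hp
      have h1 := hD p.1
      rw [Finset.card_eq_zero, Finset.eq_empty_iff_forall_notMem] at h1
      exact h1 p (by simp [hp])
    have h2 : (A \ ∅).powersetCard (2 * n) = ∅ := by
      rw [hA0]
      apply Finset.powersetCard_eq_empty.2
      simp
      omega
    rw [h2]
    simp
  obtain ⟨par, rk, hp⟩ := hT _ A r hR
  let T : Finset (Fin n × Fin n) :=
    (Finset.univ.filter (fun v => v ≠ r)).image (fun v => (par v, v))
  have hTm : ∀ p, p ∈ T ↔ ∃ v, v ≠ r ∧ (par v, v) = p := by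
    intro p
    simp [T]
  have hTA : T ⊆ A := by
    intro p h
    obtain ⟨v, hv, rfl⟩ := (hTm p).1 h
    exact (hp v hv).1
  have hTc : T.card ≤ n := by
    refine Finset.card_image_le.trans ((Finset.card_filter_le _ _).trans ?_)
    simp
  have hTR : Reach T r := by
    have key : ∀ k : ℕ, ∀ v, rk v < k →
        Relation.ReflTransGen (fun x y => (x, y) ∈ T) r v := by
      intro k
      induction k with
      | zero => intro v hv; omega
      | succ k ih =>
        intro v hv
        by_cases hvr : v = r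
        · rw [hvr]
        · have h1 := hp v hvr
          exact (ih (par v) (by omega)).tail ((hTm _).2 ⟨v, hvr, rfl⟩)
    exact fun v => key (rk v + 1) v (by omega)
  refine ⟨T, hTA, hTc, ?_⟩
  -- the target
  let Om : Finset (Finset (Fin n × Fin n)) :=
    Finset.univ.filter (fun L => Ori L ∧ L.card ≤ 3 * n ∧ und L ∈ P n)
  have hOm : Om.card ≤ 8 ^ n * (n.factorial * c ^ n) := by
    have h1 := hO c P hS n
    have h2 : ({L | Ori L ∧ L.card ≤ 3 * n ∧ und L ∈ P n} : Set (Finset (Fin n × Fin n))) =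
        (Om : Set (Finset (Fin n × Fin n))) := by
      ext L
      simp [Om]
    rw [h2, Set.ncard_coe_finset] at h1
    exact h1
  have hmaps : ∀ x ∈ (A \ T).powersetCard (2 * n) ×ˢ (Finset.univ : Finset (Equiv.Perm (Fin n))),
      mv x.2 (T ∪ x.1) ∈ Om := by
    rintro ⟨F, σ⟩ hx
    obtain ⟨hF, -⟩ := Finset.mem_product.1 hx
    obtain ⟨hF1, hF2⟩ := Finset.mem_powersetCard.1 hF
    have hX : T ∪ F ⊆ A := Finset.union_subset hTA (hF1.trans Finset.sdiff_subset)
    simp only [Om, Finset.mem_filter, Finset.mem_univ, true_and]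
    refine ⟨ori_mv σ (ori_sub hX hA), ?_, ?_⟩
    · have h1 := card_mv σ (T ∪ F)
      have h2 := Finset.card_union_le T F
      simp only at hF2
      omega
    · rw [und_mv]
      exact hH n n _ _ (hM n _ _ (und_mono hX) hP)
  have hfib : ∀ L ∈ Om, (((A \ T).powersetCard (2 * n) ×ˢ
      (Finset.univ : Finset (Equiv.Perm (Fin n)))).filter
        (fun x => mv x.2 (T ∪ x.1) = L)).card ≤ n * D ^ n := by
    intro L _
    rcases Finset.eq_empty_or_nonempty (((A \ T).powersetCard (2 * n) ×ˢ
      (Finset.univ : Finset (Equiv.Perm (Fin n)))).filter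
        (fun x => mv x.2 (T ∪ x.1) = L)) with he | ⟨⟨F0, σ0⟩, h0⟩
    · rw [he]
      simp
    · have hL0 := (Finset.mem_filter.1 h0).2
      simp only at hL0
      have hRL : Reach L (σ0 r) := by
        rw [← hL0]
        exact reach_mv σ0 (reach_sub Finset.subset_union_left hTR)
      have h1 := emb hT n D hD1 A hD L (σ0 r) hRL
      refine le_trans ?_ h1
      apply Finset.card_le_card_of_injOn (fun x => x.2⁻¹)
      · rintro ⟨F, σ⟩ hx
        obtain ⟨hx1, hx2⟩ := Finset.mem_filter.1 hx
        obtain ⟨hF, -⟩ := Finset.mem_product.1 hx1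
        obtain ⟨hF1, hF2⟩ := Finset.mem_powersetCard.1 hF
        simp only at hx2
        refine Finset.mem_filter.2 ⟨Finset.mem_univ _, ?_⟩
        simp only
        rw [← hx2, mv_mv, inv_mul_cancel, mv_one]
        exact Finset.union_subset hTA (hF1.trans Finset.sdiff_subset)
      · rintro ⟨F, σ⟩ hx ⟨F', σ'⟩ hx' hss
        obtain ⟨hx1, hx2⟩ := Finset.mem_filter.1 hx
        obtain ⟨hF, -⟩ := Finset.mem_product.1 hx1
        obtain ⟨hF1, hF2⟩ := Finset.mem_powersetCard.1 hF
        obtain ⟨hy1, hy2⟩ := Finset.mem_filter.1 hx'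
        obtain ⟨hG, -⟩ := Finset.mem_product.1 hy1
        obtain ⟨hG1, hG2⟩ := Finset.mem_powersetCard.1 hG
        simp only at hx2 hy2 hss hF1 hG1
        have hs : σ = σ' := inv_injective hss
        subst hs
        have h2 : T ∪ F = T ∪ F' := by
          have h3 : mv σ⁻¹ (mv σ (T ∪ F)) = mv σ⁻¹ (mv σ (T ∪ F')) := by rw [hx2, hy2]
          rwa [mv_mv, mv_mv, inv_mul_cancel, mv_one, mv_one] at h3
        have h4 : ∀ X : Finset (Fin n × Fin n), X ⊆ A \ T → (T ∪ X) \ T = X := by
          intro X hX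
          ext p
          simp only [Finset.mem_sdiff, Finset.mem_union]
          constructor
          · rintro ⟨h5 | h5, h6⟩
            · exact absurd h5 h6
            · exact h5
          · intro h5
            exact ⟨Or.inr h5, (Finset.mem_sdiff.1 (hX h5)).2⟩
        have h5 : F = F' := by
          rw [← h4 F hF1, ← h4 F' hG1, h2]
        rw [h5]
  have h1 := Finset.card_le_mul_card_image_of_maps_to hmaps (n * D ^ n) hfib
  rw [Finset.card_product] at h1
  have h2 : (Finset.univ : Finset (Equiv.Perm (Fin n))).card = n.factorial := by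
    rw [Finset.card_univ, Fintype.card_perm, Fintype.card_fin]
  rw [h2] at h1
  calc _ ≤ n * D ^ n * Om.card := h1
    _ ≤ n * D ^ n * (8 ^ n * (n.factorial * c ^ n)) := Nat.mul_le_mul_left _ hOm
    _ = _ := Nat.mul_comm _ _

end Pool.Agent.W120.MS
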