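import Pool.Agent.W79.MS.Defs

/-!
# Project MS: spanning out-trees and the number of embeddings
-/

set_option autoImplicit false

namespace Pool.Agent.W120.MS

open Pool.Agent.W79.MS

open scoped Classical

/-- `v` is reached from `r` in `n` steps -/
def R {V : Type} (A : Finset (V × V)) (r : V) : ℕ → V → Prop
  | 0, v => v = r
  | n + 1, v => ∃ u, R A r n u ∧ (u, v) ∈ A

theorem tree : S_TREE := by
  intro V _ A r h
  have h1 : ∀ v, ∃ n, R A r n v := by
    intro v
    have h2 := h v
    induction h2 with
    | refl => exact ⟨0, rfl⟩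
    | tail _ h3 ih =>
      obtain ⟨n, hn⟩ := ih
      exact ⟨n + 1, _, hn, h3⟩
  have h2 : ∀ v, v ≠ r → ∃ u, (u, v) ∈ A ∧ Nat.find (h1 u) < Nat.find (h1 v) := by
    intro v hv
    have h3 := Nat.find_spec (h1 v)
    obtain ⟨k, hk⟩ : ∃ k, Nat.find (h1 v) = k + 1 := by
      rcases Nat.eq_zero_or_pos (Nat.find (h1 v)) with h4 | h4
      · rw [h4] at h3
        exact absurd h3 hv
      · exact ⟨Nat.find (h1 v) - 1, by omega⟩
    rw [hk] at h3
    obtain ⟨u, hu, huv⟩ := h3
    refine ⟨u, huv, ?_⟩
    rw [hk]
    exact Nat.lt_succ_of_le (Nat.find_min' (h1 u) hu)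
  refine ⟨fun v => if hv : v = r then r else (h2 v hv).choose, fun v => Nat.find (h1 v), ?_⟩
  intro v hv
  simp only [dif_neg hv]
  exact (h2 v hv).choose_spec

theorem mem_mv {V : Type} (σ : Equiv.Perm V) (L : Finset (V × V)) (p : V × V) :
    p ∈ mv σ L ↔ ∃ q ∈ L, (σ q.1, σ q.2) = p := by
  unfold mv
  exact Finset.mem_image

theorem emb (hT : S_TREE) (n D : ℕ) (hD : 1 ≤ D) (A : Finset (Fin n × Fin n)) (hA : OutD D A)
    (L : Finset (Fin n × Fin n)) (r : Fin n) (hL : Reach L r) :
    (Finset.univ.filter (fun σ : Equiv.Perm (Fin n) => mv σ L ⊆ A)).card ≤ n * D ^ n := by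
  obtain ⟨par, rk, hp⟩ := hT _ L r hL
  -- numbering of the out-arcs
  have h1 : ∀ x : Fin n, ∃ g : Fin n × Fin n → Fin D,
      Set.InjOn g (A.filter (fun p => p.1 = x)) := by
    intro x
    have hA' : (A.filter (fun p => p.1 = x)).card = D := by
      convert hA x
    have e := Finset.equivFinOfCardEq hA'
    refine ⟨fun p => if h : p ∈ A.filter (fun p => p.1 = x) then e ⟨p, h⟩ else ⟨0, hD⟩, ?_⟩
    intro p hp q hq hpq
    have hp' : p ∈ A.filter (fun p => p.1 = x) := hp
    have hq' : q ∈ A.filter (fun p => p.1 = x) := hq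
    simp only [dif_pos hp', dif_pos hq'] at hpq
    have := e.injective hpq
    simpa using this
  choose g hg using h1
  have h2 : (Finset.univ.filter (fun σ : Equiv.Perm (Fin n) => mv σ L ⊆ A)).card ≤
      (Finset.univ : Finset (Fin n × (Fin n → Fin D))).card := by
    apply Finset.card_le_card_of_injOn
      (fun σ => (σ r, fun v => g (σ (par v)) (σ (par v), σ v)))
    · intro σ _
      exact Finset.mem_coe.2 (Finset.mem_univ _)
    · intro σ hσ τ hτ hst
      have hσ' : mv σ L ⊆ A := (Finset.mem_filter.1 hσ).2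
      have hτ' : mv τ L ⊆ A := (Finset.mem_filter.1 hτ).2
      simp only [Prod.mk.injEq] at hst
      obtain ⟨hr, hf⟩ := hst
      have key : ∀ k : ℕ, ∀ v, rk v < k → σ v = τ v := by
        intro k
        induction k with
        | zero => intro v hv; omega
        | succ k ih =>
          intro v hv
          by_cases hvr : v = r
          · rw [hvr]; exact hr
          · obtain ⟨h3, h4⟩ := hp v hvr
            have h5 := ih (par v) (by omega)
            have h6 : g (σ (par v)) (σ (par v), σ v) = g (τ (par v)) (τ (par v), τ v) :=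
              congrFun hf v
            rw [h5] at h6
            have h7 : (τ (par v), σ v) ∈ A.filter (fun p => p.1 = τ (par v)) := by
              rw [Finset.mem_filter]
              refine ⟨hσ' ?_, rfl⟩
              rw [← h5]
              exact (mem_mv _ _ _).2 ⟨_, h3, rfl⟩
            have h8 : (τ (par v), τ v) ∈ A.filter (fun p => p.1 = τ (par v)) := by
              rw [Finset.mem_filter]
              exact ⟨hτ' ((mem_mv _ _ _).2 ⟨_, h3, rfl⟩), rfl⟩
            have := hg (τ (par v)) h7 h8 h6
            simpa using this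
      exact Equiv.ext fun v => key (rk v + 1) v (by omega)
  refine h2.trans (le_of_eq ?_)
  simp

end Pool.Agent.W120.MS
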